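import Pool.Agent.Lib.MP_b07792_co.EV.Up
import Pool.Agent.Lib.MP_b07792_co.EV.Low

namespace Pool.Agent.Results.MP_b07792_co.AllCycles

open Finset Pool.Agent.Lib.MP_b07792_co.EV

/-- The exact average degree d that forces disjoint cycles of lengths at least r i. -/
theorem result :
    ∀ (k : ℕ) (r : Fin k → ℕ) (d : ℕ), 1 ≤ k → (∀ i, 3 ≤ r i) →
      d = (if (k = 1 ∧ ∀ i, Even (r i)) ∨ (∀ i, r i = 4) then ∑ i, r i - 1
        else 2 * ∑ i, (r i + 1) / 2 - 2) →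
      (∀ (V : Type) [Finite V] (G : SimpleGraph V),
        ∑ i, r i ≤ Nat.card V →
        d * Nat.card V ≤ 2 * Nat.card G.edgeSet →
        ∃ (u : Fin k → V) (c : ∀ i, G.Walk (u i) (u i)),
          (∀ i, (c i).IsCycle ∧ r i ≤ (c i).length) ∧
          ∀ i j, i ≠ j → ∀ v, v ∈ (c i).support → v ∉ (c j).support) ∧
      ∀ ε : ℝ, 0 < ε → ∃ (n : ℕ) (G : SimpleGraph (Fin n)),
        ∑ i, r i ≤ n ∧ ((d : ℝ) - ε) * n < 2 * Nat.card G.edgeSet ∧
        ¬∃ (u : Fin k → Fin n) (c : ∀ i, G.Walk (u i) (u i)),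
          (∀ i, (c i).IsCycle ∧ r i ≤ (c i).length) ∧
          ∀ i j, i ≠ j → ∀ v, v ∈ (c i).support → v ∉ (c j).support :=
  fun k r d hk hr hd => ⟨fun V _ G => up k r d hk hr hd V G, low k r d hk hr hd⟩

end Pool.Agent.Results.MP_b07792_co.AllCycles
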